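import Mathlib

/-!
# Circulant automorphisms moving the involution `2h`

For `h = 3` and `S = {±1, ±2, ±3, ±5} ⊆ ℤ/12` the graph `Cay(ℤ/12, S*)` has an automorphism fixing
`0` and moving `6`, but no subgroup `K` of order twice an odd number satisfies
`(S \ K_o) + ⟨h⟩ ⊆ S ∪ K_o`.
-/

namespace Pool.Agent.Results.MP_250e3d_co.CirculantTwelve

open Pointwise

/-- `T` is inverse-closed. -/
def InvClosed {n : ℕ} (T : Set (ZMod n)) : Prop := ∀ x ∈ T, -x ∈ T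

/-- Adjacency in the circulant graph `Cay(ℤ/n, T)`: `x ∼ y` iff `y - x ∈ T`. -/
def CayAdj {n : ℕ} (T : Set (ZMod n)) (x y : ZMod n) : Prop := y - x ∈ T

/-- `σ` is an automorphism of `Cay(ℤ/n, T)`. -/
def IsAut {n : ℕ} (T : Set (ZMod n)) (σ : Equiv.Perm (ZMod n)) : Prop :=
  ∀ x y, CayAdj T (σ x) (σ y) ↔ CayAdj T x y

/-- `S* = (S \ {2h}) + 2h` in `ℤ/4h`. -/
def star (h : ℕ) (S : Set (ZMod (4 * h))) : Set (ZMod (4 * h)) :=
  {x | ∃ s ∈ S, s ≠ ((2 * h : ℕ) : ZMod (4 * h)) ∧ x = s + ((2 * h : ℕ) : ZMod (4 * h))}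

/-- `K_o = K \ 2K`. -/
def odd {n : ℕ} (K : AddSubgroup (ZMod n)) : Set (ZMod n) :=
  {x | x ∈ K ∧ ¬ ∃ k ∈ K, x = k + k}

/-- The subgroup `⟨h⟩` as a set. -/
def gen (h : ℕ) : Set (ZMod (4 * h)) := (AddSubgroup.zmultiples ((h : ℕ) : ZMod (4 * h)) : Set _)

/-- The connection set `{±1, ±2, ±3, ±5}`. -/
def S : Set (ZMod (4 * 3)) := {x | x ∈ ({1, 2, 3, 5, 7, 9, 10, 11} : Finset (ZMod 12))}

instance : DecidablePred (· ∈ S) := fun x => by
  unfold S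
  exact inferInstanceAs (Decidable (x ∈ ({1, 2, 3, 5, 7, 9, 10, 11} : Finset (ZMod 12))))

theorem star_iff (x : ZMod (4 * 3)) :
    x ∈ star 3 S ↔ x ∈ ({1, 3, 4, 5, 7, 8, 9, 11} : Finset (ZMod 12)) := by
  have h : ∀ x : ZMod 12, (∃ s : ZMod 12, s ∈ ({1, 2, 3, 5, 7, 9, 10, 11} : Finset (ZMod 12)) ∧
      s ≠ ((2 * 3 : ℕ) : ZMod 12) ∧ x = s + ((2 * 3 : ℕ) : ZMod 12)) ↔
      x ∈ ({1, 3, 4, 5, 7, 8, 9, 11} : Finset (ZMod 12)) := by
    decide +kernel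
  exact h x

/-- Negated form of Q1. The connection set found has in addition the following properties:
`0, 2h ∉ S`, and `Cay(ℤ/4h, S)` is connected, contains a triangle and has no two distinct
vertices with the same neighbours. -/
theorem result : ∃ (h : ℕ) (S : Set (ZMod (4 * h))), h = 3 ∧ InvClosed S ∧
    (0 ∉ S ∧ ((2 * h : ℕ) : ZMod (4 * h)) ∉ S ∧ AddSubgroup.closure S = ⊤ ∧
      (∃ x y z, CayAdj S x y ∧ CayAdj S y z ∧ CayAdj S z x) ∧
      ∀ x y, (∀ z, CayAdj S x z ↔ CayAdj S y z) → x = y) ∧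
    (∃ σ : Equiv.Perm (ZMod (4 * h)), IsAut (star h S) σ ∧ σ 0 = 0 ∧
      σ ((2 * h : ℕ) : ZMod (4 * h)) ≠ ((2 * h : ℕ) : ZMod (4 * h))) ∧
    ∀ (K : AddSubgroup (ZMod (4 * h))) (q : ℕ), Odd q → Nat.card K = 2 * q →
      ¬ ((S \ odd K) + gen h ⊆ S ∪ odd K) := by
  refine ⟨3, S, rfl, ?_, ⟨?_, ?_, ?_, ?_, ?_⟩, ?_, ?_⟩
  · have h : ∀ x : ZMod 12, x ∈ ({1, 2, 3, 5, 7, 9, 10, 11} : Finset (ZMod 12)) →
        -x ∈ ({1, 2, 3, 5, 7, 9, 10, 11} : Finset (ZMod 12)) := by decide +kernel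
    exact h
  · have h : ¬ ((0 : ZMod 12) ∈ ({1, 2, 3, 5, 7, 9, 10, 11} : Finset (ZMod 12))) := by
      decide +kernel
    exact h
  · have h : ¬ (((2 * 3 : ℕ) : ZMod 12) ∈ ({1, 2, 3, 5, 7, 9, 10, 11} : Finset (ZMod 12))) := by
      decide +kernel
    exact h
  · rw [eq_top_iff]
    intro x _
    have h1 : (1 : ZMod (4 * 3)) ∈ AddSubgroup.closure S := by
      apply AddSubgroup.subset_closure
      change (1 : ZMod 12) ∈ ({1, 2, 3, 5, 7, 9, 10, 11} : Finset (ZMod 12))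
      decide
    have h2 := AddSubgroup.nsmul_mem _ h1 x.val
    rwa [nsmul_eq_mul, mul_one, ZMod.natCast_zmod_val] at h2
  · refine ⟨0, 1, 3, ?_, ?_, ?_⟩
    · change (1 - 0 : ZMod 12) ∈ ({1, 2, 3, 5, 7, 9, 10, 11} : Finset (ZMod 12))
      decide
    · change (3 - 1 : ZMod 12) ∈ ({1, 2, 3, 5, 7, 9, 10, 11} : Finset (ZMod 12))
      decide
    · change (0 - 3 : ZMod 12) ∈ ({1, 2, 3, 5, 7, 9, 10, 11} : Finset (ZMod 12))
      decide
  · have h : ∀ x y : ZMod 12, (∀ z : ZMod 12,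
        ((z - x) ∈ ({1, 2, 3, 5, 7, 9, 10, 11} : Finset (ZMod 12)) ↔
        (z - y) ∈ ({1, 2, 3, 5, 7, 9, 10, 11} : Finset (ZMod 12)))) → x = y := by decide +kernel
    exact h
  · refine ⟨Equiv.swap (2 : ZMod 12) 6, ?_, ?_, ?_⟩
    · intro x y
      unfold CayAdj
      rw [star_iff, star_iff]
      have h : ∀ x y : ZMod 12,
          ((Equiv.swap (2 : ZMod 12) 6 y - Equiv.swap (2 : ZMod 12) 6 x) ∈
            ({1, 3, 4, 5, 7, 8, 9, 11} : Finset (ZMod 12)) ↔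
          (y - x) ∈ ({1, 3, 4, 5, 7, 8, 9, 11} : Finset (ZMod 12))) := by decide +kernel
      exact h x y
    · have h : Equiv.swap (2 : ZMod 12) 6 0 = 0 := by decide
      exact h
    · have h : Equiv.swap (2 : ZMod 12) 6 ((2 * 3 : ℕ) : ZMod 12) ≠ ((2 * 3 : ℕ) : ZMod 12) := by
        decide
      exact h
  · intro K q hq hK hsub
    -- `1 ∉ K`
    have h1 : (1 : ZMod (4 * 3)) ∉ K := by
      intro h1
      have htop : K = ⊤ := by
        rw [eq_top_iff]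
        intro x _
        have h2 := AddSubgroup.nsmul_mem _ h1 x.val
        rwa [nsmul_eq_mul, mul_one, ZMod.natCast_zmod_val] at h2
      rw [htop, AddSubgroup.card_top, Nat.card_zmod] at hK
      obtain ⟨m, hm⟩ := hq
      omega
    have h4 : (4 : ZMod (4 * 3)) ∈ (S \ odd K) + gen 3 := by
      refine ⟨1, ⟨?_, fun h => h1 h.1⟩, 3, ?_, ?_⟩
      · change (1 : ZMod 12) ∈ ({1, 2, 3, 5, 7, 9, 10, 11} : Finset (ZMod 12))
        decide
      · exact AddSubgroup.mem_zmultiples _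
      · change (1 : ZMod 12) + 3 = 4
        decide
    rcases hsub h4 with h | h
    · have hn : ¬ ((4 : ZMod 12) ∈ ({1, 2, 3, 5, 7, 9, 10, 11} : Finset (ZMod 12))) := by decide
      exact hn h
    · apply h.2
      refine ⟨4 + 4, K.add_mem h.1 h.1, ?_⟩
      change (4 : ZMod 12) = (4 + 4) + (4 + 4)
      decide

end Pool.Agent.Results.MP_250e3d_co.CirculantTwelve
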